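import Pool.Agent.J4H48.HB.Cnt
import Pool.Agent.J4H48.HB.Gen
import Pool.Agent.J4H48.HB.Close
import Pool.Agent.J4H48.HB.Prob
import Pool.Agent.J4H48.HK.Pair
import Pool.Agent.J4H79.HK.Int
import Pool.Agent.J4H79.HK.Norm
import Pool.Agent.J4H79.HB.Size
import Pool.Agent.J4H72.HB.Red
import Pool.Agent.J4H72.HB.Lat
import Pool.Agent.J4H72.HB.Full
import Pool.Agent.J4H62.HB.Sharp2
import Pool.Agent.J4H62.HB.Mcell
import Pool.Agent.J4H62.HB.Grid
import Pool.Agent.J4H28.HB.Line
import Pool.Agent.J4H53.HB.Box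

/-!
# Nearly all constants in every small box of the ring of integers give no point of degree `< d`

Let `K` be a number field, `F` a polynomial of degree `d ≥ 2` over the ring of integers `O` of `K`,
and let `b ≠ 0` and `e` be in `O`. For every `B < d`, in every box of side `m` of `O`, in any position,
all but `C m ^ ([K : ℚ] B / d)` of the constants `c` give a generalized Hénon map
`(x, y) ↦ (y, (F(y) + c - e x) / b)` without periodic point `P` with `[K(P) : K] ≤ B`. The same holds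
on every arithmetic progression `x₀ + s w`, `0 ≤ s < m`, of constants, for all but `C m ^ (B / d)` of
its members, with a `C` that does not depend on `x₀`. The range `B < d` and (if `B` divides `d`) both
exponents are best possible over every `K`.

Proof. Multiplied by the leading coefficient of `F`, the coordinates of a cycle are algebraic
integers `z` with `G(z) + A c = α z' + β z''`, `G` monic. In each embedding they lie next to the `d`
roots of `G = -A c`, which move slowly with `c`. If `c` moves in each embedding `τ` by at most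
`max(1, |τ c|) ^ (1 - B / d)` and the `z` stay next to the same roots, the relative characteristic
polynomials of the `z` (of degree `≤ B` over `K`) move by a bounded amount in all embeddings, so that
they take boundedly many values, since the integers of `K` are discrete. Three consecutive ones
determine `c` up to boundedly many values. So the number of the exceptional constants in a set is at
most a multiple of the number of the cells of this shape which cover the set.
-/

set_option autoImplicit false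

namespace Pool.Agent.Results.MP_0e6b5f_nt.BoxesOfConstants

open Polynomial NumberField MeasureTheory Filter Pool.Agent.J4H48.HB

theorem gen : S_GEN :=
  t_GEN (Pool.Agent.J4H72.HB.t_RED Pool.Agent.J4H79.HB.t_SIZE Pool.Agent.J4H79.HK.t_INT
    Pool.Agent.J4H79.HK.t_NORM) (t_CNT (t_CLOSE Pool.Agent.J4H48.HK.t_PAIR))
    Pool.Agent.J4H72.HB.t_LAT

theorem main1 : S_MAIN1 :=
  t_MAIN1 gen (Pool.Agent.J4H28.HB.t_LINE Pool.Agent.J4H62.HB.t_GRID Pool.Agent.J4H62.HB.t_MCELL)

theorem main2 : S_MAIN2 :=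
  t_MAIN2 gen (Pool.Agent.J4H53.HB.t_BOX Pool.Agent.J4H62.HB.t_GRID Pool.Agent.J4H62.HB.t_MCELL)

universe u

/-- on every progression `x₀ + s w`, `0 ≤ s < m`, at most `C m ^ (B / d)` of the maps with the constant
`x₀ + s w` added to `F` have a periodic point of degree at most `B`; `C` does not depend on `x₀` -/
def Progressions (K : Type) [Field K] (F : (𝓞 K)[X]) (b e : 𝓞 K) (B : ℕ) : Prop :=
  ∀ w : 𝓞 K, w ≠ 0 → ∃ C' : ℝ, ∀ (x₀ : 𝓞 K) (m : ℕ), 1 ≤ m →
    (({s : ℤ | 0 ≤ s ∧ s < m ∧ HasPer K (F + C (x₀ + s • w)) b e B}.ncard : ℕ) : ℝ) ≤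
      C' * (m : ℝ) ^ ((B : ℝ) / F.natDegree)

/-- in every box of side `m` of `O_K`, for every integral basis, at most `C m ^ ([K : ℚ] B / d)` of the
maps with a constant of the box added to `F` have a periodic point of degree at most `B` -/
def Boxes (K : Type) [Field K] [NumberField K] (F : (𝓞 K)[X]) (b e : 𝓞 K) (B : ℕ) : Prop :=
  ∀ (ι : Type) [Fintype ι] (ω : Module.Basis ι ℤ (𝓞 K)), ∃ C' : ℝ, ∀ (a : ι → ℤ) (m : ℕ), 1 ≤ m →
    (({x : 𝓞 K | x ∈ Box ω a m ∧ HasPer K (F + C x) b e B}.ncard : ℕ) : ℝ) ≤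
      C' * (m : ℝ) ^ (Module.finrank ℚ K * ((B : ℝ) / F.natDegree))

/-- of the `k ^ q` constants `1 - k ^ q, ..., 0` for `F = y ^ (B q)`, `b = 1`, `e = -1` at least `k` give
a periodic point of degree at most `B` -/
def SharpProgressions (K : Type) [Field K] (B q : ℕ) : Prop :=
  ∀ k : ℕ, k ≤ {s : ℤ | 0 ≤ s ∧ s < (k ^ q : ℕ) ∧
    HasPer K (X ^ (B * q) + C ((1 - (k : 𝓞 K) ^ q) + s • (1 : 𝓞 K))) 1 (-1) B}.ncard

/-- of the constants in the box of all points with coordinates in `[-m, m)` for `F = y ^ (B q)`,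
`b = 1`, `e = -1` at least `δ m ^ ([K : ℚ] / q)` give a periodic point of degree at most `B` -/
def SharpBoxes (K : Type) [Field K] [NumberField K] (B q : ℕ) : Prop :=
  ∀ (ι : Type) [Fintype ι] (ω : Module.Basis ι ℤ (𝓞 K)), ∃ δ : ℝ, 0 < δ ∧
    ∀ m : ℕ, 1 ≤ m → δ * (m : ℝ) ^ ((Module.finrank ℚ K : ℝ) / q) ≤
      (({x : 𝓞 K | x ∈ Box ω (fun _ => -(m : ℤ)) (2 * m) ∧
        HasPer K (X ^ (B * q) + C x) 1 (-1) B}.ncard : ℕ) : ℝ)

/-- for random members of progressions of lengths `m n` in arbitrary positions `x n` -/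
def RandomProgressions (K : Type) [Field K] (d₀ : ℕ) : Prop :=
  ∀ (w : 𝓞 K) (Ω : Type u) [MeasurableSpace Ω] (μ : Measure Ω) (ξ : ℕ → Ω → ℤ) (x : ℕ → 𝓞 K)
    (m : ℕ → ℕ) (κ : ℝ), w ≠ 0 → (∀ n, 1 ≤ m n) → 0 ≤ κ →
    (∀ n, Pool.Agent.J4H48.HK.Noise μ (ξ n) 0 (m n) κ) →
    (Summable fun n => (m n : ℝ) ^ (-(1 / (d₀ : ℝ)))) →
    ∀ᵐ t ∂μ, ∀ (F : (𝓞 K)[X]) (b e : 𝓞 K), 2 ≤ F.natDegree → F.natDegree ≤ d₀ → b ≠ 0 →
      ∀ᶠ n in atTop, ¬ HasPer K (F + C (x n + ξ n t • w)) b e (F.natDegree - 1)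

/-- for random members of boxes of sides `m n` in arbitrary positions -/
def RandomBoxes (K : Type) [Field K] [NumberField K] (d₀ : ℕ) : Prop :=
  ∀ (ι : Type) [Fintype ι] (ω : Module.Basis ι ℤ (𝓞 K)) (Ω : Type u) [MeasurableSpace Ω]
    (μ : Measure Ω) (ξ : ℕ → Ω → 𝓞 K) (a : ℕ → ι → ℤ) (m : ℕ → ℕ) (κ : ℝ), (∀ n, 1 ≤ m n) →
    0 ≤ κ → (∀ n, Noise ω μ (ξ n) (a n) (m n) κ) →
    (Summable fun n => (m n : ℝ) ^ (-((Module.finrank ℚ K : ℝ) / d₀))) →
    ∀ᵐ t ∂μ, ∀ (F : (𝓞 K)[X]) (b e : 𝓞 K), 2 ≤ F.natDegree → F.natDegree ≤ d₀ → b ≠ 0 →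
      ∀ᶠ n in atTop, ¬ HasPer K (F + C (ξ n t)) b e (F.natDegree - 1)

/-- Let `K` be a number field, `F` of degree `d ≥ 2` over its ring of integers, `b ≠ 0` and `e` in it.
Part 1: if `1 ≤ B < d`, then on every progression of `m` constants at most `C m ^ (B / d)`, and in every
box of side `m` at most `C m ^ ([K : ℚ] B / d)` of the constants give a map with a periodic point `P`
with `[K(P) : K] ≤ B`. Part 2: the exponents are best possible over every `K` if `B` divides `d`.
Part 3: the range `B < d` is best possible. Part 4: for random members of progressions of length `m n`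
in arbitrary positions (each with probability at most `κ / m n`), and of boxes of side `m n` (each with
probability at most `κ / (m n) ^ [K : ℚ]`), without independence, with a finite sum of the
`(m n) ^ (-1 / d₀)`, respectively of the `(m n) ^ (-[K : ℚ] / d₀)`: almost surely, for all `F`, `b`,
`e` over `K` with `2 ≤ deg F ≤ d₀`, for all but finitely many `n`, the map with the `n`-th random
constant added to `F` has no periodic point of degree less than `deg F` over `K`. -/
theorem result :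
    (∀ (K : Type) [Field K] [NumberField K] (F : (𝓞 K)[X]) (b e : 𝓞 K) (B : ℕ),
      2 ≤ F.natDegree → b ≠ 0 → 1 ≤ B → B < F.natDegree →
        Progressions K F b e B ∧ Boxes K F b e B) ∧
    (∀ (K : Type) [Field K] [NumberField K] (B q : ℕ), 1 ≤ B → 1 ≤ q → 2 ≤ B * q →
      SharpProgressions K B q ∧ SharpBoxes K B q) ∧
    (∀ (K : Type) [Field K] [NumberField K] (F : (𝓞 K)[X]) (b e : 𝓞 K),
      2 ≤ F.natDegree → b ≠ 0 → HasPer K F b e F.natDegree) ∧
    (∀ (K : Type) [Field K] [NumberField K] (d₀ : ℕ),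
      RandomProgressions.{u} K d₀ ∧ RandomBoxes.{u} K d₀) := by
  refine ⟨?_, ?_, Pool.Agent.J4H72.HB.t_FULL, ?_⟩
  · intro K _ _ F b e B hd hb hB hBd
    constructor
    · intro w hw
      obtain ⟨C', _, h⟩ := main1 K F b e B hd hb hB hBd w hw
      exact ⟨C', h⟩
    · intro ι _ ω
      obtain ⟨C', _, h⟩ := main2 K F b e B hd hb hB hBd ι ω
      exact ⟨C', h⟩
  · intro K _ _ B q hB hq hBq
    exact ⟨Pool.Agent.J4H72.HB.t_SHARP1 K B q hB hq hBq,
      fun ι _ ω => Pool.Agent.J4H62.HB.t_SHARP2 K ι ω B q hB hq hBq⟩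
  · intro K _ _ d₀
    constructor
    · intro w Ω _ μ ξ x m κ hw hm hκ hξ hs
      exact t_AS1 main1 K w hw μ ξ x m κ d₀ hm hκ hξ hs
    · intro ι _ ω Ω _ μ ξ a m κ hm hκ hξ hs
      exact t_AS main2 K ω μ ξ a m κ d₀ hm hκ hξ hs

end Pool.Agent.Results.MP_0e6b5f_nt.BoxesOfConstants
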