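import Pool.Agent.J4H48.HL.Rat

/-!
# Every Hénon map over `ℚ` loses its rational periodic points under small changes of the constant

Let `F ∈ ℤ[y]` be of degree `d ≥ 2` with leading coefficient `a`, and let `b ≠ 0` and `e` be
integers. All generalized Hénon maps over `ℚ` can be written as `(x, y) ↦ (y, (F(y) - e x) / b)`. In
every interval of `m` integers, wherever it lies, for all but `C m ^ (1 / d) (1 + log m)` of the `c`
the map `(x, y) ↦ (y, (F(y) + c - e x) / b)` has no rational periodic point at all. The number `C` is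
an explicit polynomial in `|a|`, `|b|`, `|e|` for each `d`; it does not depend on the other
coefficients of `F`, which can be arbitrarily large compared with `m`.

Proof. The numbers `a z`, `z` a coordinate of a member of the cycle, are integers, and they form an
invariant set `S` for a monic recursion `α w' + β w'' = P(w) + γ`. If `S` has diameter `λ`, then
`|P(w) - (α + β) w + γ| ≤ (|α| + |β|) λ` on `S`. By Lagrange interpolation with two nodes at a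
distance `λ` the union of all the sets `S` of diameter about `λ` for all `γ` in an interval of length
`λ` has boundedly many elements; this bounds the number of these `γ`, for every scale `λ = 2 ^ j`.
The number of the intervals of length `λ` with such a `γ` is bounded since they contain, up to a
bounded multiple of `λ`, a value of a polynomial of degree `d`.
-/

set_option autoImplicit false

namespace Pool.Agent.Results.MP_0e6b5f_nt.EveryMapLocally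

open MeasureTheory Filter Pool.Agent.J4H48.HL

/-- the set of the bad constants in an interval is finite -/
theorem finite_set (F : Polynomial ℤ) (b e C : ℤ) (m : ℕ) :
    {c : ℤ | C ≤ c ∧ c < C + m ∧ HasPeriodic F b e c}.Finite :=
  (Set.finite_Ico C (C + m)).subset (fun _ ht => ⟨ht.1, ht.2.1⟩)

theorem count' (F : Polynomial ℤ) (hd : 2 ≤ F.natDegree) (b e : ℤ) (hb : b ≠ 0) (C : ℤ) (m : ℕ)
    (hm : 1 ≤ m) :
    (({c : ℤ | C ≤ c ∧ c < C + m ∧ HasPeriodic F b e c}.ncard : ℕ) : ℝ) ≤ bnd F b e m := by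
  have hfin := finite_set F b e C m
  rw [Set.ncard_eq_toFinset_card _ hfin]
  apply count F hd b e hb C m hm
  intro c hc
  rw [Set.Finite.mem_toFinset] at hc
  exact ⟨⟨hc.1, hc.2.1⟩, hc.2.2⟩

/-- the noise `ξ` takes values in `[C, C + m)`, each value with probability at most `κ / m` -/
def Noise {Ω : Type*} [MeasurableSpace Ω] (μ : Measure Ω) (ξ : Ω → ℤ) (C : ℤ) (m : ℕ) (κ : ℝ) :
    Prop :=
  (∀ᵐ ω ∂μ, C ≤ ξ ω ∧ ξ ω < C + m) ∧ ∀ r : ℤ, μ {ω | ξ ω = r} ≤ ENNReal.ofReal (κ / m)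

theorem bnd_nonneg (F : Polynomial ℤ) (b e : ℤ) (m : ℕ) : 0 ≤ bnd F b e m := by
  unfold bnd
  positivity

theorem prob {Ω : Type*} [MeasurableSpace Ω] (μ : Measure Ω) (F : Polynomial ℤ)
    (hd : 2 ≤ F.natDegree) (b e : ℤ) (hb : b ≠ 0) (ξ : Ω → ℤ) (C : ℤ) (m : ℕ) (hm : 1 ≤ m) (κ : ℝ)
    (hκ : 0 ≤ κ) (hξ : Noise μ ξ C m κ) :
    μ {ω | HasPeriodic F b e (ξ ω)} ≤ ENNReal.ofReal (κ * (bnd F b e m / m)) := by
  classical
  have hfin := finite_set F b e C m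
  have hc := count' F hd b e hb C m hm
  rw [Set.ncard_eq_toFinset_card _ hfin] at hc
  set V := hfin.toFinset with hV
  have hm0 : (0 : ℝ) < m := by exact_mod_cast hm
  have h1 : μ {ω | HasPeriodic F b e (ξ ω)} ≤ μ (⋃ r ∈ V, {ω | ξ ω = r}) := by
    apply measure_mono_ae
    filter_upwards [hξ.1] with ω hω hL
    have hL' : HasPeriodic F b e (ξ ω) := hL
    have : ξ ω ∈ V := by
      rw [hV, Set.Finite.mem_toFinset]
      exact ⟨hω.1, hω.2, hL'⟩
    show ω ∈ ⋃ r ∈ V, {ω | ξ ω = r}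
    simp only [Set.mem_iUnion, Set.mem_ofPred_eq, exists_prop]
    exact ⟨ξ ω, this, rfl⟩
  refine h1.trans ((measure_biUnion_finset_le _ _).trans ?_)
  calc ∑ r ∈ V, μ {ω | ξ ω = r} ≤ ∑ _r ∈ V, ENNReal.ofReal (κ / m) :=
        Finset.sum_le_sum fun r _ => hξ.2 r
    _ = ENNReal.ofReal (V.card * (κ / m)) := by
        rw [Finset.sum_const, nsmul_eq_mul, ENNReal.ofReal_mul (Nat.cast_nonneg _),
          ENNReal.ofReal_natCast]
    _ ≤ _ := by
        apply ENNReal.ofReal_le_ofReal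
        calc (V.card : ℝ) * (κ / m) ≤ bnd F b e m * (κ / m) :=
              mul_le_mul_of_nonneg_right hc (by positivity)
          _ = κ * (bnd F b e m / m) := by ring

theorem seq {Ω : Type*} [MeasurableSpace Ω] (μ : Measure Ω) (F : ℕ → Polynomial ℤ)
    (hd : ∀ n, 2 ≤ (F n).natDegree) (b e : ℕ → ℤ) (hb : ∀ n, b n ≠ 0) (ξ : ℕ → Ω → ℤ) (C : ℕ → ℤ)
    (m : ℕ → ℕ) (hm : ∀ n, 1 ≤ m n) (κ : ℕ → ℝ) (hκ : ∀ n, 0 ≤ κ n)
    (hξ : ∀ n, Noise μ (ξ n) (C n) (m n) (κ n))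
    (hs : Summable fun n => κ n * (bnd (F n) (b n) (e n) (m n) / m n)) :
    ∀ᵐ ω ∂μ, ∀ᶠ n in atTop, ¬ HasPeriodic (F n) (b n) (e n) (ξ n ω) := by
  apply ae_eventually_notMem
  refine ne_top_of_le_ne_top ?_ (ENNReal.tsum_le_tsum fun n =>
    prob μ (F n) (hd n) (b n) (e n) (hb n) (ξ n) (C n) (m n) (hm n) (κ n) (hκ n) (hξ n))
  rw [← ENNReal.ofReal_tsum_of_nonneg _ hs]
  · exact ENNReal.ofReal_ne_top
  · intro n
    exact mul_nonneg (hκ n) (div_nonneg (bnd_nonneg _ _ _ _) (Nat.cast_nonneg _))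

theorem log_mul_le (x m : ℕ) : Nat.log 2 (x * m) ≤ Nat.log 2 x + Nat.log 2 m + 1 := by
  rcases Nat.eq_zero_or_pos (x * m) with h | h
  · rw [h, Nat.log_zero_right]
    omega
  · have h1 : x < 2 ^ (Nat.log 2 x + 1) := Nat.lt_pow_succ_log_self (by norm_num) _
    have h2 : m < 2 ^ (Nat.log 2 m + 1) := Nat.lt_pow_succ_log_self (by norm_num) _
    have h3 : x * m < 2 ^ (Nat.log 2 x + Nat.log 2 m + 2) := by
      calc x * m < 2 ^ (Nat.log 2 x + 1) * 2 ^ (Nat.log 2 m + 1) := Nat.mul_lt_mul'' h1 h2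
        _ = 2 ^ (Nat.log 2 x + Nat.log 2 m + 2) := by
            rw [← pow_add]
            congr 1
            ring
    have h4 := Nat.log_lt_of_lt_pow h.ne' h3
    omega

/-- the bound for a fixed map -/
theorem bnd_div_le (F : Polynomial ℤ) (hd : 2 ≤ F.natDegree) (b e : ℤ) : ∃ K : ℝ, 0 ≤ K ∧
    ∀ m : ℕ, 1 ≤ m → bnd F b e m / m ≤ K * ((1 + Nat.log 2 m) * (m : ℝ) ^ (-(1 / 2) : ℝ)) := by
  obtain ⟨x, hx⟩ : ∃ x, x = F.leadingCoeff.natAbs ^ (F.natDegree - 1) := ⟨_, rfl⟩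
  obtain ⟨k, hk⟩ : ∃ k : ℝ, k = 13824 * ((F.natDegree : ℝ) + 1) ^ 8 *
    ((F.leadingCoeff.natAbs ^ (F.natDegree - 2) * (b.natAbs + e.natAbs) : ℕ) + 1) ^ 4 := ⟨_, rfl⟩
  have hk0 : 0 ≤ k := by rw [hk]; positivity
  have hdR : (2 : ℝ) ≤ F.natDegree := by exact_mod_cast hd
  refine ⟨k * (2 + Nat.log 2 x) * (x : ℝ) ^ (1 / (F.natDegree : ℝ)), by positivity, fun m hm => ?_⟩
  have hm1 : (1 : ℝ) ≤ m := by exact_mod_cast hm
  have hm0 : (0 : ℝ) < m := by linarith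
  unfold bnd
  rw [← hx, ← hk]
  have h1 : ((Nat.log 2 (x * m) : ℕ) : ℝ) ≤ Nat.log 2 x + Nat.log 2 m + 1 := by
    exact_mod_cast log_mul_le x m
  have h2 : (1 : ℝ) + Nat.log 2 (x * m) ≤ (2 + Nat.log 2 x) * (1 + Nat.log 2 m) := by
    have e1 : (0 : ℝ) ≤ Nat.log 2 x := Nat.cast_nonneg _
    have e2 : (0 : ℝ) ≤ Nat.log 2 m := Nat.cast_nonneg _
    nlinarith [mul_nonneg e1 e2]
  have h3 : ((x * m : ℕ) : ℝ) ^ (1 / (F.natDegree : ℝ)) =
      (x : ℝ) ^ (1 / (F.natDegree : ℝ)) * (m : ℝ) ^ (1 / (F.natDegree : ℝ)) := by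
    rw [Nat.cast_mul, Real.mul_rpow (Nat.cast_nonneg _) (Nat.cast_nonneg _)]
  have h4 : (m : ℝ) ^ (1 / (F.natDegree : ℝ)) / m ≤ (m : ℝ) ^ (-(1 / 2) : ℝ) := by
    have e1 : (m : ℝ) ^ (1 / (F.natDegree : ℝ)) / m = (m : ℝ) ^ (1 / (F.natDegree : ℝ) - 1) := by
      rw [Real.rpow_sub hm0, Real.rpow_one]
    rw [e1]
    apply Real.rpow_le_rpow_of_exponent_le hm1
    have e2 : 1 / (F.natDegree : ℝ) ≤ 1 / 2 := one_div_le_one_div_of_le (by norm_num) hdR
    linarith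
  rw [h3]
  calc k * (1 + (Nat.log 2 (x * m) : ℕ)) * ((x : ℝ) ^ (1 / (F.natDegree : ℝ)) *
        (m : ℝ) ^ (1 / (F.natDegree : ℝ))) / m
      = k * (1 + (Nat.log 2 (x * m) : ℕ)) * (x : ℝ) ^ (1 / (F.natDegree : ℝ)) *
        ((m : ℝ) ^ (1 / (F.natDegree : ℝ)) / m) := by ring
    _ ≤ k * ((2 + Nat.log 2 x) * (1 + Nat.log 2 m)) * (x : ℝ) ^ (1 / (F.natDegree : ℝ)) *
        (m : ℝ) ^ (-(1 / 2) : ℝ) := by
        apply mul_le_mul _ h4 (by positivity) (by positivity)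
        exact mul_le_mul_of_nonneg_right (mul_le_mul_of_nonneg_left h2 hk0) (by positivity)
    _ = _ := by ring

theorem all {Ω : Type*} [MeasurableSpace Ω] (μ : Measure Ω) (ξ : ℕ → Ω → ℤ) (C : ℕ → ℤ)
    (m : ℕ → ℕ) (hm : ∀ n, 1 ≤ m n) (κ : ℝ) (hκ : 0 ≤ κ)
    (hξ : ∀ n, Noise μ (ξ n) (C n) (m n) κ)
    (hs : Summable fun n => (1 + (Nat.log 2 (m n) : ℝ)) * (m n : ℝ) ^ (-(1 / 2) : ℝ)) :
    ∀ᵐ ω ∂μ, ∀ (F : Polynomial ℤ) (b e : ℤ), 2 ≤ F.natDegree → b ≠ 0 →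
      ∀ᶠ n in atTop, ¬ HasPeriodic F b e (ξ n ω) := by
  have hcount : Countable (Polynomial ℤ) := by
    rw [← Cardinal.mk_le_aleph0_iff]
    exact (Polynomial.cardinalMk_le_max).trans (by simp)
  rw [ae_all_iff]
  intro F
  rw [ae_all_iff]
  intro b
  rw [ae_all_iff]
  intro e
  by_cases hF : 2 ≤ F.natDegree
  · by_cases hb : b ≠ 0
    · obtain ⟨K, hK0, hK⟩ := bnd_div_le F hF b e
      have h := seq μ (fun _ => F) (fun _ => hF) (fun _ => b) (fun _ => e) (fun _ => hb) ξ C m hm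
        (fun _ => κ) (fun _ => hκ) hξ (by
          refine Summable.of_nonneg_of_le (fun n => mul_nonneg hκ
            (div_nonneg (bnd_nonneg _ _ _ _) (Nat.cast_nonneg _))) (fun n => ?_)
            (hs.mul_left (κ * K))
          rw [mul_assoc]
          exact mul_le_mul_of_nonneg_left (hK (m n) (hm n)) hκ)
      filter_upwards [h] with ω hω _ _
      exact hω
    · exact Eventually.of_forall fun ω _ h => absurd h hb
  · exact Eventually.of_forall fun ω h => absurd h hF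

/-- the exponent `1 / d` is best possible: fixed points of `(x, y) ↦ (y, y ^ d + c + x)` -/
theorem sharp (d : ℕ) (hd : 2 ≤ d) (k : ℕ) :
    k ≤ {c : ℤ | 1 - (k : ℤ) ^ d ≤ c ∧ c < 1 - (k : ℤ) ^ d + (k ^ d : ℕ) ∧
      HasPeriodic (Polynomial.X ^ d) 1 (-1) c}.ncard := by
  classical
  have hfin := finite_set (Polynomial.X ^ d) 1 (-1) (1 - (k : ℤ) ^ d) (k ^ d)
  have hinj : Function.Injective fun z : ℕ => -((z : ℤ) ^ d) := by
    intro z z' h
    have h1 : ((z : ℤ) ^ d) = (z' : ℤ) ^ d := neg_injective h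
    have h2 : z ^ d = z' ^ d := by exact_mod_cast h1
    exact Nat.pow_left_injective (by omega) h2
  have hsub : (((Finset.range k).image fun z : ℕ => -((z : ℤ) ^ d) : Finset ℤ) : Set ℤ) ⊆
      {c : ℤ | 1 - (k : ℤ) ^ d ≤ c ∧ c < 1 - (k : ℤ) ^ d + (k ^ d : ℕ) ∧
        HasPeriodic (Polynomial.X ^ d) 1 (-1) c} := by
    intro c hc
    rw [Finset.mem_coe, Finset.mem_image] at hc
    obtain ⟨z, hz, rfl⟩ := hc
    rw [Finset.mem_range] at hz
    have h1 : z ^ d < k ^ d := Nat.pow_lt_pow_left hz (by omega)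
    have h2 : (z : ℤ) ^ d < (k : ℤ) ^ d := by exact_mod_cast h1
    have h3 : (0 : ℤ) ≤ (z : ℤ) ^ d := by positivity
    refine ⟨by show 1 - (k : ℤ) ^ d ≤ -((z : ℤ) ^ d); linarith,
      by show -((z : ℤ) ^ d) < _; push_cast; linarith, ⟨((z : ℚ), (z : ℚ)), 1, le_rfl, ?_⟩⟩
    rw [Function.iterate_one]
    unfold henon
    apply Prod.ext
    · rfl
    · show (Polynomial.aeval (z : ℚ) (Polynomial.X ^ d : Polynomial ℤ) + ((-((z : ℤ) ^ d) : ℤ) : ℚ) -
        ((-1 : ℤ) : ℚ) * (z : ℚ)) / ((1 : ℤ) : ℚ) = z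
      rw [map_pow, Polynomial.aeval_X]
      push_cast
      ring
  calc k = ((Finset.range k).image fun z : ℕ => -((z : ℤ) ^ d)).card := by
        rw [Finset.card_image_of_injective _ hinj, Finset.card_range]
    _ = (((Finset.range k).image fun z : ℕ => -((z : ℤ) ^ d) : Finset ℤ) : Set ℤ).ncard :=
        (Set.ncard_coe_finset _).symm
    _ ≤ _ := Set.ncard_le_ncard hsub hfin

universe u

/-- Part 1: for every `F ∈ ℤ[y]` of degree `d ≥ 2` with leading coefficient `a`, all integers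
`b ≠ 0` and `e` and every interval of `m` integers, for at most
`13824 (d + 1) ^ 8 (|a| ^ (d - 2) (|b| + |e|) + 1) ^ 4 (1 + log₂ (|a| ^ (d - 1) m)) (|a| ^ (d - 1) m) ^ (1 / d)`
of the `c` in the interval the map `(x, y) ↦ (y, (F(y) + c - e x) / b)` has a rational periodic
point. Part 2: the exponent `1 / d` is best possible. Part 3: the probability for a random `c`.
Part 4: for ANY sequence of such maps and random changes of their constant coefficients with a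
convergent sum of these probabilities (no independence), almost surely all but finitely many of the
changed maps have no rational periodic point. Part 5: if the sum of the
`(1 + log₂ (m n)) (m n) ^ (-1 / 2)` converges, then almost surely this holds for all fixed maps at
once. -/
theorem result :
    (∀ (F : Polynomial ℤ) (b e : ℤ), 2 ≤ F.natDegree → b ≠ 0 → ∀ (C : ℤ) (m : ℕ), 1 ≤ m →
      (({c : ℤ | C ≤ c ∧ c < C + m ∧ HasPeriodic F b e c}.ncard : ℕ) : ℝ) ≤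
        13824 * ((F.natDegree : ℝ) + 1) ^ 8 *
          ((F.leadingCoeff.natAbs ^ (F.natDegree - 2) * (b.natAbs + e.natAbs) : ℕ) + 1) ^ 4 *
          (1 + Nat.log 2 (F.leadingCoeff.natAbs ^ (F.natDegree - 1) * m)) *
          ((F.leadingCoeff.natAbs ^ (F.natDegree - 1) * m : ℕ) : ℝ) ^ (1 / (F.natDegree : ℝ))) ∧
    (∀ d : ℕ, 2 ≤ d → ∀ k : ℕ, k ≤ {c : ℤ | 1 - (k : ℤ) ^ d ≤ c ∧
      c < 1 - (k : ℤ) ^ d + (k ^ d : ℕ) ∧ HasPeriodic (Polynomial.X ^ d) 1 (-1) c}.ncard) ∧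
    (∀ (Ω : Type u) [MeasurableSpace Ω] (μ : Measure Ω) (F : Polynomial ℤ) (b e : ℤ) (ξ : Ω → ℤ)
      (C : ℤ) (m : ℕ) (κ : ℝ), 2 ≤ F.natDegree → b ≠ 0 → 1 ≤ m → 0 ≤ κ → Noise μ ξ C m κ →
      μ {ω | HasPeriodic F b e (ξ ω)} ≤ ENNReal.ofReal (κ * (bnd F b e m / m))) ∧
    (∀ (Ω : Type u) [MeasurableSpace Ω] (μ : Measure Ω) (F : ℕ → Polynomial ℤ) (b e : ℕ → ℤ)
      (ξ : ℕ → Ω → ℤ) (C : ℕ → ℤ) (m : ℕ → ℕ) (κ : ℕ → ℝ), (∀ n, 2 ≤ (F n).natDegree) →
      (∀ n, b n ≠ 0) → (∀ n, 1 ≤ m n) → (∀ n, 0 ≤ κ n) →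
      (∀ n, Noise μ (ξ n) (C n) (m n) (κ n)) →
      (Summable fun n => κ n * (bnd (F n) (b n) (e n) (m n) / m n)) →
      ∀ᵐ ω ∂μ, ∀ᶠ n in atTop, ¬ HasPeriodic (F n) (b n) (e n) (ξ n ω)) ∧
    (∀ (Ω : Type u) [MeasurableSpace Ω] (μ : Measure Ω) (ξ : ℕ → Ω → ℤ) (C : ℕ → ℤ)
      (m : ℕ → ℕ) (κ : ℝ), (∀ n, 1 ≤ m n) → 0 ≤ κ → (∀ n, Noise μ (ξ n) (C n) (m n) κ) →
      (Summable fun n => (1 + (Nat.log 2 (m n) : ℝ)) * (m n : ℝ) ^ (-(1 / 2) : ℝ)) →
      ∀ᵐ ω ∂μ, ∀ (F : Polynomial ℤ) (b e : ℤ), 2 ≤ F.natDegree → b ≠ 0 →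
        ∀ᶠ n in atTop, ¬ HasPeriodic F b e (ξ n ω)) :=
  ⟨fun F b e hd hb C m hm => count' F hd b e hb C m hm, sharp,
    fun _ _ μ F b e ξ C m κ hd hb hm hκ hξ => prob μ F hd b e hb ξ C m hm κ hκ hξ,
    fun _ _ μ F b e ξ C m κ hd hb hm hκ hξ hs => seq μ F hd b e hb ξ C m hm κ hκ hξ hs,
    fun _ _ μ ξ C m κ hm hκ hξ hs => all μ ξ C m hm κ hκ hξ hs⟩

end Pool.Agent.Results.MP_0e6b5f_nt.EveryMapLocally
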