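import Pool.Agent.J4H68.Henon.Long

/-!
# Hénon maps over `ℚ` with rational cycles of quadratic length

For every `d ≥ 4` there is a generalized Hénon map `(x, y) ↦ (y, F(y) - x)` over `ℚ` of degree `d`
with a rational periodic point whose exact period is at least `2 (⌊d / 2⌋ + 1) ^ 2 - 5`, that is,
at least `(d + 2) ^ 2 / 2 - 5` for even `d` and at least `(d + 1) ^ 2 / 2 - 5` for odd `d`.

Proof. Let `h = W + 1 + K`, `K ≥ 1`, and let `F` be the polynomial with `F(u) = 0` for `u = h` and
for the integers `u` of `[-W, W]` with `u ≡ W mod 2`, and `F(u) = -1` for the other integers `u` of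
`[-h, h]`. The integral points `(u, v)` of the square `[-h, h] ^ 2` with `F(v) = 0` if `u = h` and
`F(u) = 0` if `v = h` form a finite invariant set, so all of them are periodic. The fourth
iterate of the map moves a point `(u, v)` with `W < u < h` and `|v| ≤ W` (roughly) by one to the
right or to the left, according to the parity of `v`, and at both ends of this strip it passes to
the next row: the orbit is a snake that fills the strip, and its three images fill the three other
arms of a cross. The cycle has `8 (W + 1) (K + 1) - 3` elements.
-/

namespace Pool.Agent.Results.MP_0e6b5f_nt.LongRationalCycles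

open Polynomial Function J4H68.Henon

/-- For every `d ≥ 4` there is a generalized Hénon map of degree `d` over `ℚ` with a rational
periodic point of exact period at least `2 (⌊d / 2⌋ + 1) ^ 2 - 5`. -/
theorem result : ∀ d : ℕ, 4 ≤ d → ∃ F : ℚ[X], F.natDegree = d ∧
    ∃ P : ℚ × ℚ, P ∈ periodicPts (henon F 1) ∧
      2 * (d / 2 + 1) ^ 2 ≤ minimalPeriod (henon F 1) P + 5 :=
  long_cycle

end Pool.Agent.Results.MP_0e6b5f_nt.LongRationalCycles
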