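import Pool.Agent.J4H36.HB.Int

/-!
# Many periodic points of bounded degree of Hénon maps: a lower bound `B log B` over every number field

Let `K` be any number field and `B` a bound for the degrees over `K`.  A Hénon map of degree `d` has at
most `d ^ m` points fixed by its iterate of order `m`, and this gives for a typical map about `B` periodic
points of degree at most `B`.  We prove that for an explicit and large class of Hénon maps
`f(x, y) = (y, F(y) - x)` of degree `d` there are more: at least `B log B / (2 d² log d)` for all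
`B ≥ d⁴`; more precisely, for each `n` that is not congruent to `2` modulo `3` at least
`(2 n - 1) (d ^ n - 2 d ^ ⌊(n + 1) / 3⌋)` periodic points of minimal period `2 n - 1` have degree at most
`d ^ n` over `K`.  So a constant `C(D, d, B)` as in Q1 is at least `B log B / (2 d² log d)` for `B ≥ d⁴`.

The class consists of the maps for which, at some finite place `v` of `K`, the coefficients of `F` are
integral, the leading coefficient is a unit and `F' ≡ 1`: for example `F = y ^ d + y`.  It contains a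
positive proportion of all `F` with integral coefficients of size at most `H`, for all `K` at once.

Proof.  Let `σ(x, y) = (y, x)`.  Then `f σ f = σ`.  The coordinates of the orbit of `(t, t)` are
polynomials in `t`; `f ^ (2 n - 1)` fixes `(t, t)` if and only if `t` is a root of a certain polynomial
`k` of degree `d ^ n`.  At `v` the derivatives of the coordinates satisfy modulo `v` the linear
recurrence `u (j + 2) = u (j + 1) - u j`, so `k' ≡ ±1`, and `k` has `d ^ n` different roots, because
they are integral at `v`.  For all but few of them the minimal period is `2 n - 1`, and then the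
`2 n - 1` points of the orbit are different from the points of the other orbits, since two points
`(t, t)` and `(s, s)` of one orbit of odd period are equal.
-/

set_option autoImplicit false

namespace Pool.Agent.Results.MP_0e6b5f_nt.SymmetricOrbits

open Polynomial Function NumberField IsDedekindDomain

/-- the points with coordinates in the algebraic closure of `K` -/
abbrev Plane (K : Type) [Field K] : Type := AlgebraicClosure K × AlgebraicClosure K

/-- the generalized Hénon map `(x, y) ↦ (y, F(y) - δ x)` -/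
noncomputable def henon {K : Type} [Field K] (F : K[X]) (δ : K) (P : Plane K) : Plane K :=
  (P.2, aeval P.2 F - algebraMap K (AlgebraicClosure K) δ * P.1)

/-- the degree `[K(P) : K]` -/
noncomputable def deg {K : Type} [Field K] (P : Plane K) : ℕ :=
  Module.finrank K (IntermediateField.adjoin K {P.1, P.2})

/-- For each `n ≥ 1` not congruent to `2` modulo `3`, the map `(x, y) ↦ (y, F(y) - x)` has at least
`(2 n - 1) (d ^ n - 2 d ^ ⌊(n + 1) / 3⌋)` periodic points of minimal period `2 n - 1` and of degree at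
most `d ^ n` over `K`. -/
def Many {K : Type} [Field K] (d : ℕ) (F : K[X]) : Prop :=
  ∀ n : ℕ, 1 ≤ n → n % 3 ≠ 2 → ∃ S : Finset (Plane K),
    (2 * (n : ℝ) - 1) * ((d : ℝ) ^ n - 2 * (d : ℝ) ^ ((n + 1) / 3)) ≤ S.card ∧
    ∀ P ∈ S, minimalPeriod (henon F 1) P = 2 * n - 1 ∧ deg P ≤ d ^ n

/-- the polynomial with the coefficients `a 0, ..., a d` -/
noncomputable def poly (K : Type) [Field K] {d : ℕ} (a : Fin (d + 1) → ℤ) : K[X] :=
  ∑ i : Fin (d + 1), C ((a i : ℤ) : K) * X ^ (i : ℕ)

theorem henon_one {K : Type} [Field K] (F : K[X]) :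
    henon F 1 = fun P : Plane K => (P.2, aeval P.2 F - P.1) := by
  funext P
  show (P.2, aeval P.2 F - algebraMap K (AlgebraicClosure K) 1 * P.1) = _
  rw [map_one, one_mul]

theorem many_of {K : Type} [Field K] (d : ℕ) (F : K[X])
    (h : ∀ n : ℕ, 1 ≤ n → n % 3 ≠ 2 → ∃ S : Finset (Plane K),
      (2 * n - 1) * d ^ n ≤ S.card + (2 * n - 1) * (2 * d ^ ((n + 1) / 3)) ∧
      ∀ P ∈ S, minimalPeriod (fun P : Plane K => (P.2, aeval P.2 F - P.1)) P = 2 * n - 1 ∧
        Module.finrank K (IntermediateField.adjoin K {P.1, P.2}) ≤ d ^ n) : Many d F := by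
  intro n hn1 hn
  obtain ⟨S, h1, h2⟩ := h n hn1 hn
  refine ⟨S, ?_, ?_⟩
  · have h3 : (((2 * n - 1) * d ^ n : ℕ) : ℝ) ≤
      ((S.card + (2 * n - 1) * (2 * d ^ ((n + 1) / 3)) : ℕ) : ℝ) := by exact_mod_cast h1
    have h4 : ((2 * n - 1 : ℕ) : ℝ) = 2 * (n : ℝ) - 1 := by
      rw [Nat.cast_sub (by omega)]; push_cast; ring
    simp only [Nat.cast_mul, Nat.cast_add, Nat.cast_pow, h4, Nat.cast_ofNat] at h3
    linarith
  · rw [henon_one]
    exact h2

theorem blogb {K : Type} [Field K] (d : ℕ) (hd : 2 ≤ d) (F : K[X]) (h : Many d F) (B : ℕ)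
    (hB : d ^ 4 ≤ B) : ∃ S : Finset (Plane K),
      (B : ℝ) * Real.log B / (2 * (d : ℝ) ^ 2 * Real.log d) ≤ S.card ∧
      ∀ P ∈ S, (∃ m : ℕ, 1 ≤ m ∧ (henon F 1)^[m] P = P) ∧ deg P ≤ B := by
  have hB0 : B ≠ 0 := by
    have : 0 < d ^ 4 := by positivity
    omega
  have hlog : 4 ≤ Nat.log d B := (Nat.le_log_iff_pow_le (by omega) hB0).2 hB
  obtain ⟨n, hn4, hn3, hn1, hn2⟩ : ∃ n, 4 ≤ n ∧ n % 3 ≠ 2 ∧ n ≤ Nat.log d B ∧ Nat.log d B ≤ n + 1 := by
    by_cases hc : Nat.log d B % 3 = 2
    · exact ⟨Nat.log d B - 1, by omega, by omega, by omega, by omega⟩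
    · exact ⟨Nat.log d B, hlog, hc, le_rfl, by omega⟩
  have hlow : d ^ n ≤ B := (Nat.pow_le_pow_right (by omega) hn1).trans (Nat.pow_log_le_self d hB0)
  have hup : B ≤ d ^ (n + 2) :=
    (Nat.lt_pow_succ_log_self (by omega) B).le.trans (Nat.pow_le_pow_right (by omega) (by omega))
  obtain ⟨S, h1, h2⟩ := h n (by omega) hn3
  refine ⟨S, ?_, ?_⟩
  · refine le_trans ?_ h1
    have hdR : (2 : ℝ) ≤ d := by exact_mod_cast hd
    have hl : 0 < Real.log d := Real.log_pos (by linarith)
    have hBR : (B : ℝ) ≤ (d : ℝ) ^ (n + 2) := by exact_mod_cast hup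
    have hBpos : (0 : ℝ) < B := by exact_mod_cast Nat.pos_of_ne_zero hB0
    have hlB : Real.log B ≤ (n + 2) * Real.log d := by
      have := Real.log_le_log hBpos hBR
      rw [Real.log_pow] at this
      simpa using this
    have hlB0 : 0 ≤ Real.log B := Real.log_nonneg (by exact_mod_cast Nat.pos_of_ne_zero hB0)
    have hnR : (4 : ℝ) ≤ n := by exact_mod_cast hn4
    have hDn : (0 : ℝ) < (d : ℝ) ^ n := by positivity
    have h3 : (B : ℝ) * Real.log B ≤ (d : ℝ) ^ (n + 2) * ((n + 2) * Real.log d) :=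
      mul_le_mul hBR hlB hlB0 (by positivity)
    have h4 : (B : ℝ) * Real.log B / (2 * (d : ℝ) ^ 2 * Real.log d) ≤ (n + 2) / 2 * (d : ℝ) ^ n := by
      rw [div_le_iff₀ (by positivity)]
      calc (B : ℝ) * Real.log B ≤ (d : ℝ) ^ (n + 2) * ((n + 2) * Real.log d) := h3
        _ = (n + 2) / 2 * (d : ℝ) ^ n * (2 * (d : ℝ) ^ 2 * Real.log d) := by
            rw [pow_add]; ring
    have h5 : 8 * (d : ℝ) ^ ((n + 1) / 3) ≤ (d : ℝ) ^ n := by
      obtain ⟨e, he⟩ : ∃ e, n = 3 + e + (n + 1) / 3 := ⟨n - 3 - (n + 1) / 3, by omega⟩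
      conv_rhs => rw [he]
      rw [pow_add]
      apply mul_le_mul_of_nonneg_right _ (by positivity)
      calc (8 : ℝ) = 2 ^ 3 := by norm_num
        _ ≤ (d : ℝ) ^ 3 := pow_le_pow_left₀ (by norm_num) hdR 3
        _ ≤ (d : ℝ) ^ (3 + e) := pow_le_pow_right₀ (by linarith) (by omega)
    refine h4.trans ?_
    nlinarith [h5, hDn, hnR]
  · intro P hP
    obtain ⟨h3, h4⟩ := h2 P hP
    refine ⟨⟨2 * n - 1, by omega, ?_⟩, h4.trans hlow⟩
    rw [← h3]
    exact iterate_minimalPeriod

theorem coeff_polyZ {d : ℕ} (a : Fin (d + 1) → ℤ) (j : ℕ) :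
    (∑ i : Fin (d + 1), C (a i) * X ^ (i : ℕ) : ℤ[X]).coeff j =
      if h : j < d + 1 then a ⟨j, h⟩ else 0 := by
  rw [finsetSum_coeff]
  simp only [coeff_C_mul, coeff_X_pow]
  split_ifs with h
  · rw [Finset.sum_eq_single ⟨j, h⟩]
    · simp
    · intro b _ hb
      rw [if_neg, mul_zero]
      intro hj
      exact hb (Fin.ext hj.symm)
    · intro hcon
      exact absurd (Finset.mem_univ _) hcon
  · apply Finset.sum_eq_zero
    intro b _
    rw [if_neg, mul_zero]
    intro hj
    exact h (hj ▸ b.2)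

theorem many_int (p : ℕ) (hp : p.Prime) {d : ℕ} (hd : 2 ≤ d) (hpd : p ∣ d) (a : Fin (d + 1) → ℤ)
    (h1 : ∀ i : Fin (d + 1), (i : ℕ) = 1 ∨ (i : ℕ) = d → (p : ℤ) ∣ a i - 1)
    (h2 : ∀ i : Fin (d + 1), (i : ℕ) ≠ 1 → (i : ℕ) ≠ d → (p : ℤ) ∣ a i)
    (K : Type) [Field K] [NumberField K] : Many d (poly K a) := by
  set F : ℤ[X] := ∑ i : Fin (d + 1), C (a i) * X ^ (i : ℕ) with hF
  have hmap : F.map (Int.castRingHom K) = poly K a := by
    rw [hF, poly, Polynomial.map_sum]
    apply Finset.sum_congr rfl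
    intro i _
    simp
  have hlast : ¬ (p : ℤ) ∣ a (Fin.last d) := by
    intro hcon
    have h3 : (p : ℤ) ∣ 1 := by
      have := dvd_sub hcon (h1 (Fin.last d) (Or.inr rfl))
      simpa using this
    have := Int.natAbs_dvd_natAbs.2 h3
    simp at this
    exact hp.one_lt.ne' this
  have hcd : F.coeff d = a (Fin.last d) := by
    rw [hF, coeff_polyZ, dif_pos (by omega)]
    rfl
  have hne : a (Fin.last d) ≠ 0 := by
    intro h
    exact hlast (h ▸ dvd_zero _)
  have hdeg : F.natDegree = d := by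
    apply le_antisymm
    · rw [natDegree_le_iff_coeff_eq_zero]
      intro j hj
      rw [hF, coeff_polyZ, dif_neg (by omega)]
    · apply le_natDegree_of_ne_zero
      rw [hcd]; exact hne
  have hlc : F.leadingCoeff = a (Fin.last d) := by
    rw [leadingCoeff, hdeg, hcd]
  apply many_of
  intro n hn1 hn
  rw [← hmap]
  apply Pool.Agent.J4H36.HB.general_int p hp F hd hdeg
  · rw [hlc]; exact hlast
  · intro i
    rw [coeff_sub, coeff_derivative, hF, coeff_polyZ, coeff_one]
    by_cases hi : i + 1 < d + 1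
    · rw [dif_pos hi]
      by_cases hi0 : i = 0
      · subst hi0
        have h3 := h1 ⟨0 + 1, hi⟩ (Or.inl rfl)
        simpa using h3
      · rw [if_neg hi0, sub_zero]
        by_cases hid : i + 1 = d
        · apply Dvd.dvd.mul_left
          have : ((i : ℤ) + 1) = (d : ℤ) := by exact_mod_cast hid
          rw [this]
          exact_mod_cast hpd
        · apply Dvd.dvd.mul_right
          exact h2 ⟨i + 1, hi⟩ (by show i + 1 ≠ 1; omega) hid
    · rw [dif_neg hi, if_neg (by omega)]
      simp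
  · exact hn1
  · exact hn

theorem many_example (d : ℕ) (hd : 2 ≤ d) (K : Type) [Field K] [NumberField K] :
    Many d (X ^ d + X : K[X]) := by
  have hp : (Nat.minFac d).Prime := Nat.minFac_prime (by omega)
  have key := many_int (Nat.minFac d) hp hd (Nat.minFac_dvd d)
    (fun i : Fin (d + 1) => if (i : ℕ) = 1 ∨ (i : ℕ) = d then (1 : ℤ) else 0)
    (fun i hi => by simp [if_pos hi])
    (fun i h1 h2 => by rw [if_neg (by tauto)]; exact dvd_zero _) K
  have hpoly : poly K (fun i : Fin (d + 1) => if (i : ℕ) = 1 ∨ (i : ℕ) = d then (1 : ℤ) else 0) =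
      X ^ d + X := by
    rw [poly]
    have h1 : ∀ i : Fin (d + 1),
        C (((if (i : ℕ) = 1 ∨ (i : ℕ) = d then (1 : ℤ) else 0 : ℤ)) : K) * X ^ (i : ℕ) =
        (if i = ⟨1, by omega⟩ then (X : K[X]) else 0) + (if i = Fin.last d then X ^ d else 0) := by
      intro i
      by_cases hi1 : (i : ℕ) = 1
      · have h2 : i = ⟨1, by omega⟩ := Fin.ext hi1
        have h3 : i ≠ Fin.last d := by
          intro h
          have := congrArg Fin.val h
          simp only [Fin.val_last] at this
          omega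
        rw [if_pos (Or.inl hi1), if_pos h2, if_neg h3, hi1]
        simp
      · by_cases hid : (i : ℕ) = d
        · have h2 : i ≠ ⟨1, by omega⟩ := fun h => hi1 (congrArg Fin.val h)
          have h3 : i = Fin.last d := Fin.ext hid
          rw [if_pos (Or.inr hid), if_neg h2, if_pos h3, hid]
          simp
        · have h2 : i ≠ ⟨1, by omega⟩ := fun h => hi1 (congrArg Fin.val h)
          have h3 : i ≠ Fin.last d := fun h => hid (congrArg Fin.val h)
          rw [if_neg (by tauto), if_neg h2, if_neg h3]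
          simp
    rw [Finset.sum_congr rfl fun i _ => h1 i, Finset.sum_add_distrib]
    simp
    ring
  rwa [hpoly] at key

theorem proportion (d H : ℕ) (hd : 2 ≤ d) (hH : 1 ≤ H) :
    ((H : ℝ) / d) ^ (d + 1) ≤ (({a : Fin (d + 1) → ℤ | (∀ i, |a i| ≤ (H : ℤ)) ∧ a (Fin.last d) ≠ 0 ∧
      ∀ (K : Type) [Field K] [NumberField K], Many d (poly K a)}.ncard : ℕ) : ℝ) := by
  classical
  set p := Nat.minFac d with hpdef
  have hp : p.Prime := Nat.minFac_prime (by omega)
  have hpd : p ∣ d := Nat.minFac_dvd d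
  have hple : p ≤ d := Nat.le_of_dvd (by omega) hpd
  set H' := (H - 1) / p with hH'
  have hH1 : p * H' ≤ H - 1 := Nat.mul_div_le _ _
  have hH2 : H ≤ p * (2 * H' + 1) := by
    have h1 : H - 1 < p * (H' + 1) := Nat.lt_mul_div_succ _ hp.pos
    have h2 : H ≤ p * (H' + 1) := by
      generalize p * (H' + 1) = z at h1
      omega
    exact h2.trans (Nat.mul_le_mul_left _ (by omega))
  let φ : (Fin (d + 1) → ℤ) → (Fin (d + 1) → ℤ) := fun b i =>
    p * b i + (if (i : ℕ) = 1 ∨ (i : ℕ) = d then 1 else 0)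
  have hφ : Function.Injective φ := by
    intro b c h
    funext i
    have h1 := congrFun h i
    have h2 : (p : ℤ) * b i = p * c i := add_right_cancel h1
    exact mul_left_cancel₀ (by exact_mod_cast hp.ne_zero) h2
  set W : Finset (Fin (d + 1) → ℤ) := Fintype.piFinset fun _ => Finset.Icc (-(H' : ℤ)) H' with hW
  have hWc : W.card = (2 * H' + 1) ^ (d + 1) := by
    rw [hW, Fintype.card_piFinset]
    simp only [Int.card_Icc, Finset.prod_const, Finset.card_univ, Fintype.card_fin]
    congr 1
    omega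
  set A := {a : Fin (d + 1) → ℤ | (∀ i, |a i| ≤ (H : ℤ)) ∧ a (Fin.last d) ≠ 0 ∧
      ∀ (K : Type) [Field K] [NumberField K], Many d (poly K a)} with hA
  have hfin : A.Finite := by
    apply Set.Finite.subset (Finset.finite_toSet
      (Fintype.piFinset fun _ : Fin (d + 1) => Finset.Icc (-(H : ℤ)) H))
    intro a ha
    rw [Finset.mem_coe, Fintype.mem_piFinset]
    intro i
    rw [Finset.mem_Icc]
    exact abs_le.1 (ha.1 i)
  have hsub : ((W.image φ : Finset (Fin (d + 1) → ℤ)) : Set (Fin (d + 1) → ℤ)) ⊆ A := by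
    intro a ha
    obtain ⟨b, hb, rfl⟩ := Finset.mem_image.1 (Finset.mem_coe.1 ha)
    rw [hW, Fintype.mem_piFinset] at hb
    refine ⟨?_, ?_, ?_⟩
    · intro i
      have h1 := Finset.mem_Icc.1 (hb i)
      have h2 : ((p * H' : ℕ) : ℤ) ≤ (H : ℤ) - 1 := by
        have : ((p * H' : ℕ) : ℤ) ≤ ((H - 1 : ℕ) : ℤ) := by exact_mod_cast hH1
        rwa [Nat.cast_sub hH, Nat.cast_one] at this
      push_cast at h2
      have hp0 : (0 : ℤ) < p := by exact_mod_cast hp.pos
      show |(p : ℤ) * b i + (if (i : ℕ) = 1 ∨ (i : ℕ) = d then 1 else 0)| ≤ H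
      rw [abs_le]
      split_ifs
      · constructor
        · nlinarith [h1.1]
        · nlinarith [h1.2]
      · constructor
        · nlinarith [h1.1]
        · nlinarith [h1.2]
    · intro h
      have h1 : (p : ℤ) * b (Fin.last d) + 1 = 0 := by
        have h2 : (p : ℤ) * b (Fin.last d) +
          (if ((Fin.last d : Fin (d + 1)) : ℕ) = 1 ∨ ((Fin.last d : Fin (d + 1)) : ℕ) = d then 1 else 0) = 0 := h
        rwa [if_pos (Or.inr (Fin.val_last d))] at h2
      have h3 : (p : ℤ) ∣ 1 := ⟨-b (Fin.last d), by linarith⟩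
      have := Int.natAbs_dvd_natAbs.2 h3
      simp at this
      exact hp.one_lt.ne' this
    · intro K _ _
      apply many_int p hp hd hpd
      · intro i hi
        show (p : ℤ) ∣ p * b i + (if (i : ℕ) = 1 ∨ (i : ℕ) = d then 1 else 0) - 1
        rw [if_pos hi, add_sub_cancel_right]
        exact dvd_mul_right _ _
      · intro i h1 h2
        show (p : ℤ) ∣ p * b i + (if (i : ℕ) = 1 ∨ (i : ℕ) = d then 1 else 0)
        rw [if_neg (by tauto), add_zero]
        exact dvd_mul_right _ _
  have hcard : (2 * H' + 1) ^ (d + 1) ≤ A.ncard := by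
    rw [← hWc, ← Finset.card_image_of_injective W hφ, ← Set.ncard_coe_finset]
    exact Set.ncard_le_ncard hsub hfin
  have h5 : (H : ℝ) / d ≤ ((2 * H' + 1 : ℕ) : ℝ) := by
    rw [div_le_iff₀ (by exact_mod_cast (by omega : 0 < d))]
    have : H ≤ (2 * H' + 1) * d := hH2.trans (by
      rw [mul_comm]
      exact Nat.mul_le_mul_left _ hple)
    exact_mod_cast this
  calc ((H : ℝ) / d) ^ (d + 1) ≤ ((2 * H' + 1 : ℕ) : ℝ) ^ (d + 1) :=
        pow_le_pow_left₀ (by positivity) h5 _
    _ ≤ (A.ncard : ℝ) := by exact_mod_cast hcard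

/-- **Many periodic points of bounded degree.**

(1) `Many d F` holds for every number field `K`, every finite place `v` of `K` and every polynomial `F`
over `K` of degree `d ≥ 2` with `v`-integral coefficients whose leading coefficient is a unit at `v` and
whose derivative is congruent to `1` at `v`.
(2) It holds for `F = X ^ d + X`, over every number field.
(3) At least `(H / d) ^ (d + 1)` of the `(2 H + 1) ^ (d + 1)` polynomials with integral coefficients of
absolute value at most `H` have degree `d` and satisfy `Many d F` over all number fields.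
(4) If `Many d F` holds then for every `B ≥ d ^ 4` the Hénon map `(x, y) ↦ (y, F(y) - x)` has at least
`B log B / (2 d² log d)` periodic points of degree at most `B` over `K`. -/
theorem result :
    (∀ (K : Type) [Field K] [NumberField K] (v : HeightOneSpectrum (𝓞 K)) (d : ℕ), 2 ≤ d →
      ∀ F : K[X], F.natDegree = d → (∀ i, v.valuation K (F.coeff i) ≤ 1) →
      v.valuation K F.leadingCoeff = 1 →
      (∀ i, v.valuation K ((derivative F - 1).coeff i) < 1) → Many d F) ∧
    (∀ d : ℕ, 2 ≤ d → ∀ (K : Type) [Field K] [NumberField K], Many d (X ^ d + X : K[X])) ∧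
    (∀ d H : ℕ, 2 ≤ d → 1 ≤ H →
      ((H : ℝ) / d) ^ (d + 1) ≤ (({a : Fin (d + 1) → ℤ | (∀ i, |a i| ≤ (H : ℤ)) ∧
        a (Fin.last d) ≠ 0 ∧
        ∀ (K : Type) [Field K] [NumberField K], Many d (poly K a)}.ncard : ℕ) : ℝ)) ∧
    (∀ (K : Type) [Field K] [NumberField K] (d : ℕ), 2 ≤ d → ∀ F : K[X], Many d F →
      ∀ B : ℕ, d ^ 4 ≤ B → ∃ S : Finset (Plane K),
        (B : ℝ) * Real.log B / (2 * (d : ℝ) ^ 2 * Real.log d) ≤ S.card ∧
        ∀ P ∈ S, (∃ m : ℕ, 1 ≤ m ∧ (henon F 1)^[m] P = P) ∧ deg P ≤ B) := by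
  refine ⟨?_, ?_, ?_, ?_⟩
  · intro K _ _ v d hd F hFd h1 h2 h3
    apply many_of
    intro n hn1 hn
    exact Pool.Agent.J4H36.HB.general_val v F hd hFd h1 h2 h3 n hn1 hn
  · intro d hd K _ _
    exact many_example d hd K
  · intro d H hd hH
    exact proportion d H hd hH
  · intro K _ _ d hd F h B hB
    exact blogb d hd F h B hB

end Pool.Agent.Results.MP_0e6b5f_nt.SymmetricOrbits
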